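import Pool.Agent.Lib.MP_6bc78b_nt.MS.GL.Iface
import Pool.Agent.Lib.MP_6bc78b_nt.MS.QZ.H50.Smv

/-! Project MS, Part GL, module SM2: mean values over the zeros, any length below `T`. -/

set_option autoImplicit false

open Complex Filter Topology MeasureTheory ArithmeticFunction

namespace Pool.Agent.Lib.MP_6bc78b_nt.MS.GL.H43

open Pool.Agent.Lib.MP_6bc78b_nt.MS Pool.Agent.Lib.MP_6bc78b_nt.MS.P1
  Pool.Agent.Lib.MP_6bc78b_nt.MS.QZ

lemma adm_supp {δ T : ℝ} {f : ArithmeticFunction ℝ} (hf : AdmD δ T f) :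
    ∀ n, ⌊T ^ (1 - δ)⌋₊ < n → f n = 0 := by
  intro n hn
  by_contra h
  have h1 := (hf n).2 h
  have h2 : n ≤ ⌊T ^ (1 - δ)⌋₊ := Nat.le_floor h1
  omega

lemma LS_adm {δ T : ℝ} {f : ArithmeticFunction ℝ} (hf : AdmD δ T f) (s : ℂ) :
    LS f s = dpoly f (T ^ (1 - δ)) s := by
  rw [P5.H59.LS_fin f ⌊T ^ (1 - δ)⌋₊ (adm_supp hf) s]
  rfl

lemma AN_adm {δ T c : ℝ} (hδ : 0 < δ) (hT : 1 ≤ T) (hc : 1 < c) {f : ArithmeticFunction ℝ}
    (hf : AdmD δ T f) : AN c f ≤ T ^ (4 : ℝ) := by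
  have hT0 : 0 < T := by linarith
  unfold AN
  rw [tsum_eq_sum (s := Finset.Icc 1 ⌊T ^ (1 - δ)⌋₊)]
  · have h1 : ∀ n ∈ Finset.Icc 1 ⌊T ^ (1 - δ)⌋₊, |f n| * (n : ℝ) ^ (-c) ≤ T ^ (3 : ℝ) := by
      intro n hn
      rw [Finset.mem_Icc] at hn
      have hn' : (1 : ℝ) ≤ n := by exact_mod_cast hn.1
      have h2 : (n : ℝ) ^ (-c) ≤ 1 := Real.rpow_le_one_of_one_le_of_nonpos hn' (by linarith)
      calc |f n| * (n : ℝ) ^ (-c) ≤ T ^ (3 : ℝ) * 1 :=
            mul_le_mul (hf n).1 h2 (by positivity) (by positivity)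
        _ = _ := mul_one _
    refine (Finset.sum_le_sum h1).trans ?_
    rw [Finset.sum_const, Nat.card_Icc, nsmul_eq_mul, Nat.add_sub_cancel]
    calc ((⌊T ^ (1 - δ)⌋₊ : ℕ) : ℝ) * T ^ (3 : ℝ) ≤ T * T ^ (3 : ℝ) := by
          apply mul_le_mul_of_nonneg_right (H70.floor_le_T T δ hT hδ); positivity
      _ = T ^ (1 : ℝ) * T ^ (3 : ℝ) := by rw [Real.rpow_one]
      _ = T ^ (4 : ℝ) := by rw [← Real.rpow_add hT0]; norm_num
  · intro n hn
    rcases Nat.eq_zero_or_pos n with h0 | h0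
    · rw [h0]; simp
    · rw [adm_supp hf n (by
        by_contra h1
        exact hn (Finset.mem_Icc.2 ⟨h0, by omega⟩))]
      simp

/-- The part with `ζ'/ζ`. -/
lemma zeta_part (hLS : LSerStatement) (c δ T : ℝ) (hδ : 0 < δ) (hc1 : 1 < c) (hT : 1 ≤ T)
    (hKT : AN c La ≤ T)
    (f g : ArithmeticFunction ℝ) (hf : AdmD δ T f) (hg : AdmD δ T g)
    (hET : ∀ a b : ℕ → ℂ,
      Summable (fun n : ℕ => ‖a n‖ * (n : ℝ) ^ (-c)) →
      (∑' n : ℕ, ‖a n‖ * (n : ℝ) ^ (-c)) ≤ T ^ (12 : ℝ) → (∀ k, ‖b k‖ ≤ T ^ (12 : ℝ)) →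
      ‖VI c (fun s => LSeries a s *
        (∑ k ∈ Finset.Icc 1 ⌊T ^ (1 - δ)⌋₊, b k * (k : ℂ) ^ (-(1 - s))) * WW T s) -
        (cG T : ℂ) * ∑ k ∈ Finset.Icc 1 ⌊T ^ (1 - δ)⌋₊, a k * b k / k‖ ≤ 1 / T) :
    |(VI c (fun s => logDeriv riemannZeta s * (dpoly f (T ^ (1 - δ)) s * dpoly g (T ^ (1 - δ)) (1 - s)) * WW T s)).re +
      cG T * ∑ k ∈ Finset.Icc 1 ⌊T ^ (1 - δ)⌋₊, (La * f) k * g k / k| ≤ 1 / T := by
  have hT0 : 0 < T := by linarith
  have h312 : T ^ (3 : ℝ) ≤ T ^ (12 : ℝ) := Real.rpow_le_rpow_of_exponent_le hT (by norm_num)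
  obtain ⟨hALa, -, -⟩ := hLS.2.2.2.1 c hc1
  have hAf : ASum c f := P5.H59.ASum_fin _ ⌊T ^ (1 - δ)⌋₊ (adm_supp hf) c
  obtain ⟨h4, h5, h6⟩ := hLS.2.2.2.2.1 c La f hALa hAf
  have hANf := AN_adm hδ hT hc1 hf
  have hANf0 : 0 ≤ AN c f := tsum_nonneg (fun n => by positivity)
  have hnorm : ∀ n : ℕ, ‖(((La * f) n : ℝ) : ℂ)‖ * (n : ℝ) ^ (-c) =
      |(La * f) n| * (n : ℝ) ^ (-c) := by
    intro n
    rw [Complex.norm_real, Real.norm_eq_abs]
  have hA2 : AN c (La * f) ≤ T ^ (12 : ℝ) := by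
    refine h5.trans ?_
    calc AN c La * AN c f ≤ T * T ^ (4 : ℝ) :=
          mul_le_mul hKT hANf hANf0 hT0.le
      _ = T ^ (1 : ℝ) * T ^ (4 : ℝ) := by rw [Real.rpow_one]
      _ = T ^ (5 : ℝ) := by rw [← Real.rpow_add hT0]; norm_num
      _ ≤ T ^ (12 : ℝ) := Real.rpow_le_rpow_of_exponent_le hT (by norm_num)
  have he := hET (fun n => (((La * f) n : ℝ) : ℂ))
    (fun j => ((g j : ℝ) : ℂ))
    (by simp_rw [hnorm]; exact h4) (by simp_rw [hnorm]; exact hA2) (fun j => by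
      rw [Complex.norm_real, Real.norm_eq_abs]
      exact (hg j).1.trans h312)
  have hre : ∀ t : ℝ, (c + t * I : ℂ).re = c := by intro t; simp
  have h1 : VI c (fun s => LSeries (fun n => (((La * f) n : ℝ) : ℂ)) s *
      (∑ j ∈ Finset.Icc 1 ⌊T ^ (1 - δ)⌋₊, ((g j : ℝ) : ℂ) *
        (j : ℂ) ^ (-(1 - s))) * WW T s) =
      - VI c (fun s => logDeriv riemannZeta s *
        (dpoly f (T ^ (1 - δ)) s * dpoly g (T ^ (1 - δ)) (1 - s)) * WW T s) := by
    rw [← ZBB.VI_neg]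
    apply ZBB.VI_congr
    intro t
    have h2 : LSeries (fun n => (((La * f) n : ℝ) : ℂ)) (c + t * I) =
        (-logDeriv riemannZeta (c + t * I)) * dpoly f (T ^ (1 - δ)) (c + t * I) := by
      have h3 := h6 (c + t * I) (hre t)
      rw [hLS.1 _ (by rw [hre]; exact hc1), LS_adm hf] at h3
      exact h3
    have h4' : ∑ j ∈ Finset.Icc 1 ⌊T ^ (1 - δ)⌋₊,
        ((g j : ℝ) : ℂ) * (j : ℂ) ^ (-(1 - (c + t * I))) =
        dpoly g (T ^ (1 - δ)) (1 - (c + t * I)) := rfl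
    rw [h2, h4']
    ring
  rw [h1] at he
  set V := VI c (fun s => logDeriv riemannZeta s *
        (dpoly f (T ^ (1 - δ)) s * dpoly g (T ^ (1 - δ)) (1 - s)) * WW T s) with hV
  have h2 : (cG T : ℂ) * ∑ j ∈ Finset.Icc 1 ⌊T ^ (1 - δ)⌋₊, (((La * f) j : ℝ) : ℂ) *
      ((g j : ℝ) : ℂ) / (j : ℂ) =
      ((cG T * ∑ j ∈ Finset.Icc 1 ⌊T ^ (1 - δ)⌋₊, (La * f) j * g j / j : ℝ) : ℂ) := by
    push_cast
    rfl
  rw [h2] at he
  have h3 := Complex.abs_re_le_norm (-V - ((cG T * ∑ j ∈ Finset.Icc 1 ⌊T ^ (1 - δ)⌋₊,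
        (La * f) j * g j / j : ℝ) : ℂ))
  rw [Complex.sub_re, Complex.neg_re, Complex.ofReal_re] at h3
  have h7 : V.re + cG T * ∑ j ∈ Finset.Icc 1 ⌊T ^ (1 - δ)⌋₊, (La * f) j * g j / j =
      -(-V.re - cG T * ∑ j ∈ Finset.Icc 1 ⌊T ^ (1 - δ)⌋₊, (La * f) j * g j / j) := by ring
  rw [h7, abs_neg]
  exact h3.trans he

/-- SM2. -/
theorem sm2 (hZ : ZeroSumStatement) (hTl : TailStatement) (hE : Edge1Statement)
    (hcho : OmAsympStatement) (hLS : LSerStatement)
    (hMov : P5.MovStatement) (hchi : ChiStatement) (hDD : DDStatement)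
    (hMV2 : Mv2Statement) : Sm2Statement := by
  classical
  intro δ hδ hδ1
  obtain ⟨c, hc1, hc2⟩ : ∃ c : ℝ, 1 < c ∧ c < 3 / 2 := ⟨5 / 4, by norm_num, by norm_num⟩
  set A : ℝ := 12 with hA
  obtain ⟨C, hC0, hC⟩ := hcho
  obtain ⟨TM, hTM3, hMM⟩ := hMV2 δ hδ hδ1
  have hev := ((hZ A c hc1 hc2).and ((hTl A c (by linarith) (by linarith)).and
    ((hTl A (1 / 2) (by norm_num) (by norm_num)).and
    ((hE (1 - δ) c A (by linarith) (by linarith) hc1 hc2).and
    ((hMov A c hc1 hc2).and hDD.2.2.1)))))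
  obtain ⟨T1, hT1⟩ := Filter.eventually_atTop.1 hev
  set K : ℝ := AN c La with hK
  refine ⟨30, max TM (max T1 (max 20 (max (2 * C) K))), by norm_num, ?_, ?_⟩
  · have : (20 : ℝ) ≤ max TM (max T1 (max 20 (max (2 * C) K))) :=
      (le_max_left _ _).trans ((le_max_right _ _).trans (le_max_right _ _))
    linarith
  intro T hT f g hf hg
  have hTM : TM ≤ T := (le_max_left _ _).trans hT
  have hTT1 : T1 ≤ T := ((le_max_left _ _).trans (le_max_right _ _)).trans hT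
  have hT20 : 20 ≤ T :=
    ((le_max_left _ _).trans ((le_max_right _ _).trans (le_max_right _ _))).trans hT
  have hTC : 2 * C ≤ T := ((le_max_left _ _).trans ((le_max_right _ _).trans
    ((le_max_right _ _).trans (le_max_right _ _)))).trans hT
  have hTK : K ≤ T := ((le_max_right _ _).trans ((le_max_right _ _).trans
    ((le_max_right _ _).trans (le_max_right _ _)))).trans hT
  obtain ⟨hZT, hTT, hTH, hET, hMovT, hDT⟩ := hT1 T hTT1
  have hT0 : 0 < T := by linarith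
  have hT1' : 1 < T := by linarith
  have hlog : 0 < Real.log T := Real.log_pos hT1'
  have hcG : 0 < cG T := hDT.2.2.1
  have hTinv : 1 / T ≤ 1 := by rw [div_le_one hT0]; linarith
  have hTinv0 : 0 < 1 / T := by positivity
  obtain ⟨hALa, -, -⟩ := hLS.2.2.2.1 c hc1
  have hpow : ∀ a b : ℝ, a ≤ b → T ^ a ≤ T ^ b :=
    fun a b h => Real.rpow_le_rpow_of_exponent_le hT1'.le h
  set P : ℂ → ℂ := dpoly f (T ^ (1 - δ)) with hPdef
  set R : ℂ → ℂ := dpoly g (T ^ (1 - δ)) with hRdef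
  have hPd : Differentiable ℂ P := H70.dpoly_diff f _
  have hRd : Differentiable ℂ R := H70.dpoly_diff g _
  have hPconj : ∀ s : ℂ, P ((starRingEnd ℂ) s) = (starRingEnd ℂ) (P s) := H70.dpoly_conj f _
  have hRconj : ∀ s : ℂ, R ((starRingEnd ℂ) s) = (starRingEnd ℂ) (R s) := H70.dpoly_conj g _
  set F1 : ℂ → ℂ := fun s => P s * R (1 - s) with hF1
  set F2 : ℂ → ℂ := fun s => R s * P (1 - s) with hF2
  set F : ℂ → ℂ := fun s => (F1 s + F2 s) / 2 with hF
  have hsub : Differentiable ℂ (fun s : ℂ => 1 - s) :=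
    (differentiable_const _).sub differentiable_id
  have hF1d : Differentiable ℂ F1 := hPd.mul (hRd.comp hsub)
  have hF2d : Differentiable ℂ F2 := hRd.mul (hPd.comp hsub)
  have hFd : Differentiable ℂ F := (hF1d.add hF2d).div_const 2
  have hFconj : ∀ s : ℂ, (starRingEnd ℂ) (F (1 - (starRingEnd ℂ) s)) = F s := by
    intro s
    have e1 : (starRingEnd ℂ) (P (1 - (starRingEnd ℂ) s)) = P (1 - s) := by
      rw [← hPconj, map_sub, map_one, Complex.conj_conj]
    have e2 : (starRingEnd ℂ) (R (1 - (starRingEnd ℂ) s)) = R (1 - s) := by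
      rw [← hRconj, map_sub, map_one, Complex.conj_conj]
    have e3 : (starRingEnd ℂ) (P (1 - (1 - (starRingEnd ℂ) s))) = P s := by
      rw [← hPconj, sub_sub_cancel, Complex.conj_conj]
    have e4 : (starRingEnd ℂ) (R (1 - (1 - (starRingEnd ℂ) s))) = R s := by
      rw [← hRconj, sub_sub_cancel, Complex.conj_conj]
    simp only [hF, hF1, hF2]
    rw [map_div₀, map_add, map_mul, map_mul, e1, e2, e3, e4, map_ofNat]
    ring
  have hhalfc : ∀ t : ℝ, (1 : ℂ) - (1 / 2 + t * I) = (starRingEnd ℂ) (1 / 2 + t * I) := by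
    intro t
    simp only [map_add, map_mul, Complex.conj_ofReal, Complex.conj_I, map_div₀, map_one,
      map_ofNat]
    ring
  set φ : ℝ → ℝ := fun t => (P (1 / 2 + t * I) * (starRingEnd ℂ) (R (1 / 2 + t * I))).re with hφ
  have hFhalf : ∀ t : ℝ, F (1 / 2 + t * I) = ((φ t : ℝ) : ℂ) := by
    intro t
    have h1 : P (1 - (1 / 2 + t * I)) = (starRingEnd ℂ) (P (1 / 2 + t * I)) := by
      rw [hhalfc, hPconj]
    have h2 : R (1 - (1 / 2 + t * I)) = (starRingEnd ℂ) (R (1 / 2 + t * I)) := by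
      rw [hhalfc, hRconj]
    simp only [hF, hF1, hF2, hφ]
    rw [h1, h2]
    apply Complex.ext
    · simp
      ring
    · simp
      ring
  have hZS := H70.ZS_real T F φ hFhalf
  set Z : ℝ := ∑ᶠ γ ∈ zset T, (mz γ : ℝ) * wt T γ * φ γ with hZdef
  have hPb : ∀ s : ℂ, -1 ≤ s.re → ‖P s‖ ≤ T ^ (5 : ℝ) := fun s hs =>
    H70.sum_norm_le f _ T hT1'.le (H70.floor_le_T T δ hT1'.le hδ) (fun n => (hf n).1) s hs
  have hRb : ∀ s : ℂ, -1 ≤ s.re → ‖R s‖ ≤ T ^ (5 : ℝ) := fun s hs =>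
    H70.sum_norm_le g _ T hT1'.le (H70.floor_le_T T δ hT1'.le hδ) (fun n => (hg n).1) s hs
  have h510 : T ^ (10 : ℝ) = T ^ (5 : ℝ) * T ^ (5 : ℝ) := by
    rw [← Real.rpow_add hT0]; norm_num
  have hF1b : ∀ s : ℂ, -1 ≤ s.re → s.re ≤ 2 → ‖F1 s‖ ≤ T ^ (10 : ℝ) := by
    intro s hs1 hs2
    simp only [hF1]
    rw [norm_mul, h510]
    exact mul_le_mul (hPb s hs1) (hRb _ (by rw [Complex.sub_re, Complex.one_re]; linarith))
      (norm_nonneg _) (by positivity)
  have hF2b : ∀ s : ℂ, -1 ≤ s.re → s.re ≤ 2 → ‖F2 s‖ ≤ T ^ (10 : ℝ) := by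
    intro s hs1 hs2
    simp only [hF2]
    rw [norm_mul, h510]
    exact mul_le_mul (hRb s hs1) (hPb _ (by rw [Complex.sub_re, Complex.one_re]; linarith))
      (norm_nonneg _) (by positivity)
  have hFb : ∀ s : ℂ, -1 ≤ s.re → s.re ≤ 2 → ‖F s‖ ≤ T ^ (10 : ℝ) := by
    intro s hs1 hs2
    simp only [hF]
    rw [norm_div]
    have h1 := norm_add_le (F1 s) (F2 s)
    have h2 := hF1b s hs1 hs2
    have h3 := hF2b s hs1 hs2
    have h4 : ‖(2 : ℂ)‖ = 2 := by norm_num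
    rw [h4, div_le_iff₀ (by norm_num)]
    linarith
  have hz := hZT F hFd.differentiableOn (fun s hs => (hFb s (by linarith [hs.1.1])
    (by linarith [hs.1.2])).trans (hpow _ _ (by rw [hA]; norm_num)))
  simp_rw [hFconj] at hz
  have hmv := hMovT F hFd.differentiableOn (fun s hs => (hFb s (by linarith [hs.1.1])
    (by linarith [hs.1.2])).trans (hpow _ _ (by rw [hA]; norm_num)))
  have hline : Continuous (fun t : ℝ => (c + t * I : ℂ)) := by fun_prop
  have hre : ∀ t : ℝ, (c + t * I : ℂ).re = c := by intro t; simp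
  have hWc : Continuous (WW T) := by unfold WW; fun_prop
  -- the zeta part
  have hzeta : ∀ t : ℝ, ‖logDeriv riemannZeta (c + t * I)‖ ≤ T := by
    intro t
    have h1 := ZBB.norm_LS_le La c hALa (c + t * I) (hre t)
    rw [hLS.1 _ (by rw [hre]; exact hc1), norm_neg] at h1
    exact h1.trans hTK
  have h1t : ∀ t : ℝ, (1 : ℝ) ≤ (1 + |t|) ^ A := by
    intro t
    exact Real.one_le_rpow (by linarith [abs_nonneg t]) (by rw [hA]; norm_num)
  have hTA0 : 0 ≤ T ^ A := by positivity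
  have htail : ∀ G : ℂ → ℂ, Continuous G → (∀ s : ℂ, -1 ≤ s.re → s.re ≤ 2 → ‖G s‖ ≤ T ^ (10 : ℝ)) →
      Integrable (fun t : ℝ => (logDeriv riemannZeta (c + t * I) * G (c + t * I)) *
        WW T (c + t * I)) ∧
      ‖VI c (fun s => (logDeriv riemannZeta s * G s) * WW T s) -
        VF c T (fun s => (logDeriv riemannZeta s * G s) * WW T s)‖ ≤ 1 / T := by
    intro G hG hGb
    exact hTT (fun s => logDeriv riemannZeta s * G s) (by
      exact ((ZBB.meas_zeta c hc1).mul (hG.comp hline).measurable).aestronglyMeasurable)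
      (fun t => by
        rw [norm_mul]
        have h1 : ‖logDeriv riemannZeta (c + t * I)‖ * ‖G (c + t * I)‖ ≤ T ^ A := by
          calc ‖logDeriv riemannZeta (c + t * I)‖ * ‖G (c + t * I)‖ ≤ T * T ^ (10 : ℝ) :=
                mul_le_mul (hzeta t) (hGb _ (by rw [hre]; linarith) (by rw [hre]; linarith))
                  (norm_nonneg _) hT0.le
            _ = T ^ (1 + 10 : ℝ) := by rw [Real.rpow_add hT0, Real.rpow_one]
            _ ≤ T ^ A := hpow _ _ (by rw [hA]; norm_num)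
        exact h1.trans (le_mul_of_one_le_right hTA0 (h1t t)))
  obtain ⟨i1, t1⟩ := htail F hFd.continuous hFb
  obtain ⟨ia, -⟩ := htail F1 hF1d.continuous hF1b
  obtain ⟨ib, -⟩ := htail F2 hF2d.continuous hF2b
  obtain ⟨i2, t2⟩ := hTH F (by
    have hl : Continuous (fun t : ℝ => (((1 / 2 : ℝ) : ℂ) + t * I : ℂ)) := by fun_prop
    exact (hFd.continuous.comp hl).aestronglyMeasurable) (fun t => by
      have h1 : ‖F (((1 / 2 : ℝ) : ℂ) + t * I)‖ ≤ T ^ A :=
        (hFb _ (by simp; norm_num) (by simp; norm_num)).trans (hpow _ _ (by rw [hA]; norm_num))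
      exact h1.trans (le_mul_of_one_le_right hTA0 (h1t t)))
  have hza := zeta_part hLS c δ T hδ hc1 hT1'.le hTK f g hf hg hET
  have hzb := zeta_part hLS c δ T hδ hc1 hT1'.le hTK g f hg hf hET
  set Sa : ℝ := ∑ k ∈ Finset.Icc 1 ⌊T ^ (1 - δ)⌋₊, (La * f) k * g k / k with hSa
  set Sb : ℝ := ∑ k ∈ Finset.Icc 1 ⌊T ^ (1 - δ)⌋₊, (La * g) k * f k / k with hSb
  set Va := VI c (fun s => logDeriv riemannZeta s * (P s * R (1 - s)) * WW T s) with hVa
  set Vb := VI c (fun s => logDeriv riemannZeta s * (R s * P (1 - s)) * WW T s) with hVb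
  have hVab : VI c (fun s => (logDeriv riemannZeta s * F s) * WW T s) = (Va + Vb) / 2 := by
    rw [hVa, hVb]
    unfold VI
    rw [← mul_add, ← integral_add ia ib, mul_div_assoc, ← integral_div]
    congr 1
    refine integral_congr_ae (Filter.Eventually.of_forall fun t => ?_)
    simp only [hF, hF1, hF2]
    ring
  set V1 := VF c T (fun s => logDeriv riemannZeta s * F s * WW T s) with hV1
  set V3 := VF c T (fun s => om s * F s * WW T s) with hV3
  have hV1re : |V1.re + cG T * (Sa + Sb) / 2| ≤ 2 := by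
    have h1 := Complex.abs_re_le_norm (VI c (fun s => (logDeriv riemannZeta s * F s) * WW T s) - V1)
    have h2 := h1.trans t1
    rw [Complex.sub_re, hVab] at h2
    have h3 : ((Va + Vb) / 2).re = (Va.re + Vb.re) / 2 := by simp
    rw [h3] at h2
    rw [abs_le] at h2 hza hzb ⊢
    constructor <;> linarith [h2.1, h2.2, hza.1, hza.2, hzb.1, hzb.2]
  have hV2 : VF c T (fun s => (om s + logDeriv riemannZeta s) * F s * WW T s) = V3 + V1 := by
    rw [hV3, hV1]
    unfold VF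
    rw [← mul_add, ← intervalIntegral.integral_add]
    · congr 1
      apply intervalIntegral.integral_congr
      intro t _
      simp only
      ring
    · apply ContinuousOn.intervalIntegrable
      intro t ht
      rw [Set.uIcc_of_le (by linarith)] at ht
      have h1 : DifferentiableAt ℂ om (c + t * I) :=
        P5.H51.om_diff hchi _ (by rw [hre]; linarith) (by
          simp only [Complex.add_im, Complex.ofReal_im, Complex.mul_im, Complex.ofReal_re,
            Complex.I_im, Complex.I_re, mul_one, mul_zero, add_zero, zero_add]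
          have := ht.1
          intro h
          linarith)
      have h2 : ContinuousAt (fun t : ℝ => om (c + t * I)) t :=
        ContinuousAt.comp (f := fun t : ℝ => (c + t * I : ℂ)) (g := om)
          h1.continuousAt hline.continuousAt
      exact ((h2.mul (hFd.continuous.comp hline).continuousAt).mul
        (hWc.comp hline).continuousAt).continuousWithinAt
    · exact i1.intervalIntegrable
  rw [hV2] at hz
  -- the om part
  obtain ⟨mi, mfg⟩ := hMM T hTM f g hf hg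
  obtain ⟨mi1, mff⟩ := hMM T hTM f f hf hf
  obtain ⟨mi2, mgg⟩ := hMM T hTM g g hg hg
  set S : ℝ := ∑ n ∈ Finset.Icc 1 ⌊T ^ (1 - δ)⌋₊, f n * g n / (n : ℝ) with hS
  set Sf : ℝ := ∑ n ∈ Finset.Icc 1 ⌊T ^ (1 - δ)⌋₊, f n * f n / (n : ℝ) with hSf
  set Sg : ℝ := ∑ n ∈ Finset.Icc 1 ⌊T ^ (1 - δ)⌋₊, g n * g n / (n : ℝ) with hSg
  set S2 : ℝ := ∑ n ∈ Finset.Icc 1 ⌊T ^ (1 - δ)⌋₊, (f n ^ 2 + g n ^ 2) / (n : ℝ) with hS2
  have hS2eq : S2 = Sf + Sg := by
    rw [hS2, hSf, hSg, ← Finset.sum_add_distrib]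
    refine Finset.sum_congr rfl fun n _ => ?_
    ring
  set ψ : ℝ → ℝ := fun t => ((P (1 / 2 + t * I) * (starRingEnd ℂ) (P (1 / 2 + t * I))).re +
    (R (1 / 2 + t * I) * (starRingEnd ℂ) (R (1 / 2 + t * I))).re) / 2 with hψdef
  have hsq : ∀ z : ℂ, (z * (starRingEnd ℂ) z).re = ‖z‖ ^ 2 := by
    intro z
    rw [Complex.mul_conj, Complex.ofReal_re, Complex.normSq_eq_norm_sq]
  have hψ : ∀ t, |φ t| ≤ ψ t := by
    intro t
    simp only [hφ, hψdef]
    rw [hsq, hsq]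
    have h1 := Complex.abs_re_le_norm (P (1 / 2 + t * I) * (starRingEnd ℂ) (R (1 / 2 + t * I)))
    rw [norm_mul, Complex.norm_conj] at h1
    have h2 := sq_nonneg (‖P (1 / 2 + t * I)‖ - ‖R (1 / 2 + t * I)‖)
    linarith
  have hψeq : (fun t : ℝ => ψ t * MS.wt T t) = fun t : ℝ =>
      ((P (1 / 2 + t * I) * (starRingEnd ℂ) (P (1 / 2 + t * I))).re * MS.wt T t +
      (R (1 / 2 + t * I) * (starRingEnd ℂ) (R (1 / 2 + t * I))).re * MS.wt T t) / 2 := by
    funext t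
    simp only [hψdef]
    ring
  have hψint : Integrable (fun t : ℝ => ψ t * MS.wt T t) := by
    rw [hψeq]
    exact (mi1.add mi2).div_const 2
  have hψI : (1 / (2 * Real.pi)) * ∫ t : ℝ, ψ t * MS.wt T t ≤ (cG T * S2 + 2 / T) / 2 := by
    rw [hψeq, integral_div, integral_add mi1 mi2, hS2eq]
    rw [abs_le] at mff mgg
    have h1 := mff.2
    have h2 := mgg.2
    have h3 : (2 : ℝ) / T = 1 / T + 1 / T := by ring
    rw [h3]
    have h4 : 1 / (2 * Real.pi) * ((∫ t : ℝ, (P (1 / 2 + t * I) *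
        (starRingEnd ℂ) (P (1 / 2 + t * I))).re * MS.wt T t) +
        ∫ t : ℝ, (R (1 / 2 + t * I) * (starRingEnd ℂ) (R (1 / 2 + t * I))).re * MS.wt T t) / 2 =
        (1 / (2 * Real.pi) * (∫ t : ℝ, (P (1 / 2 + t * I) *
        (starRingEnd ℂ) (P (1 / 2 + t * I))).re * MS.wt T t) +
        1 / (2 * Real.pi) *
        ∫ t : ℝ, (R (1 / 2 + t * I) * (starRingEnd ℂ) (R (1 / 2 + t * I))).re * MS.wt T t) / 2 := by
      ring
    rw [← mul_div_assoc, h4]
    linarith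
  have hom := H50.om_part hchi C T hT20 hTC hC φ ψ F hFd.continuous hFhalf i2 hψ hψint
  have hhalf : (((1 / 2 : ℝ)) : ℂ) = 1 / 2 := P5.H23.half_cast
  have hVIre : (VI (1 / 2) (fun s => F s * WW T s)).re =
      1 / (2 * Real.pi) * ∫ t : ℝ, φ t * MS.wt T t := by
    unfold VI
    have h0 : (1 / (2 * Real.pi) : ℂ) = ((1 / (2 * Real.pi) : ℝ) : ℂ) := by push_cast; rfl
    rw [h0, Complex.re_ofReal_mul]
    congr 1
    have h1 : ∫ t : ℝ, F (((1 / 2 : ℝ) : ℂ) + t * I) * WW T (((1 / 2 : ℝ) : ℂ) + t * I) =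
        ∫ t : ℝ, ((φ t * MS.wt T t : ℝ) : ℂ) := by
      refine integral_congr_ae (Filter.Eventually.of_forall fun t => ?_)
      show F (((1 / 2 : ℝ) : ℂ) + t * I) * WW T (((1 / 2 : ℝ) : ℂ) + t * I) = _
      rw [P5.H23.WW_half, hhalf, hFhalf]
      push_cast
      rfl
    rw [h1, integral_complex_ofReal, Complex.ofReal_re]
  have hVFhalf : |(VF (1 / 2) T (fun s => F s * WW T s)).re - cG T * S| ≤ 2 / T := by
    have h1 := (Complex.abs_re_le_norm (VI (1 / 2) (fun s => F s * WW T s) -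
      VF (1 / 2) T (fun s => F s * WW T s))).trans t2
    rw [Complex.sub_re, hVIre] at h1
    have h3 : (2 : ℝ) / T = 1 / T + 1 / T := by ring
    rw [h3]
    rw [abs_le] at h1 mfg ⊢
    constructor
    · linarith [h1.2, mfg.1]
    · linarith [h1.1, mfg.2]
  have hlT : Real.log T * (2 / T) ≤ 2 := by
    have h1 := Real.log_le_sub_one_of_pos hT0
    have h2 : Real.log T * (2 / T) = 2 * (Real.log T / T) := by ring
    have h3 : Real.log T / T ≤ 1 := by rw [div_le_one hT0]; linarith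
    rw [h2]; linarith
  have hV3re : |V3.re - Real.log T * (cG T * S)| ≤ 1 + 4 * ((cG T * S2 + 2 / T) / 2) + 2 := by
    have h1 := (Complex.abs_re_le_norm
      (V3 - VF (1 / 2) T (fun s => om s * F s * WW T s))).trans hmv
    rw [Complex.sub_re] at h1
    have h2 : |Real.log T * (VF (1 / 2) T (fun s => F s * WW T s)).re -
        Real.log T * (cG T * S)| ≤ 2 := by
      rw [← mul_sub, abs_mul, abs_of_pos hlog]
      exact (mul_le_mul_of_nonneg_left hVFhalf hlog.le).trans hlT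
    have h3 := hom.trans (mul_le_mul_of_nonneg_left hψI (by norm_num : (0 : ℝ) ≤ 4))
    rw [abs_le] at h1 h2 h3 ⊢
    constructor
    · linarith [h1.1, h2.1, h3.1]
    · linarith [h1.2, h2.2, h3.2]
  have hfin : |Z - (V1.re + (V3.re + V1.re))| ≤ 1 := by
    have h1 := Complex.abs_re_le_norm (ZS T F - (V1 + (starRingEnd ℂ) (V3 + V1)))
    have h2 := h1.trans hz
    rw [hZS, Complex.sub_re, Complex.add_re, Complex.conj_re, Complex.add_re,
      Complex.ofReal_re] at h2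
    exact h2
  have hS20 : 0 ≤ S2 := Finset.sum_nonneg fun n _ => by positivity
  have hcS : 0 ≤ cG T * S2 := mul_nonneg hcG.le hS20
  have e2 : (2 : ℝ) / T = 2 * (1 / T) := by ring
  rw [e2] at hV3re
  have hgoal : (30 : ℝ) * (cG T * S2 + 1) = 30 * (cG T * S2) + 30 := by ring
  show |Z - cG T * (Real.log T * S - Sa - Sb)| ≤ 30 * (cG T * S2 + 1)
  rw [hgoal]
  have e3 : cG T * (Real.log T * S - Sa - Sb) =
    Real.log T * (cG T * S) - cG T * (Sa + Sb) := by ring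
  rw [e3]
  rw [abs_le] at hfin hV3re hV1re ⊢
  constructor
  · linarith [hfin.1, hV3re.1, hV1re.1, hfin.2, hV3re.2, hV1re.2]
  · linarith [hfin.1, hV3re.1, hV1re.1, hfin.2, hV3re.2, hV1re.2]

end Pool.Agent.Lib.MP_6bc78b_nt.MS.GL.H43
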